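import Pool.Agent.W98.OS.Defs

/-!
# Project OS: the closed form
-/

set_option autoImplicit false

namespace Pool.Agent.W362.OS.FIN

open Pool.Agent.W98.OS

theorem choose_cast (a b : ℕ) : (((a + b).choose a : ℕ) : ℚ) =
    ((a + b).factorial : ℚ) / ((a.factorial : ℚ) * (b.factorial : ℚ)) := by
  have h := Nat.add_choose_mul_factorial_mul_factorial a b
  rw [← Nat.choose_symm_add] at h
  have h2 : (((a + b).choose a : ℕ) : ℚ) * (a.factorial : ℚ) * (b.factorial : ℚ) =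
      ((a + b).factorial : ℚ) := by exact_mod_cast h
  have ha : (a.factorial : ℚ) ≠ 0 := by exact_mod_cast a.factorial_ne_zero
  have hb : (b.factorial : ℚ) ≠ 0 := by exact_mod_cast b.factorial_ne_zero
  rw [eq_div_iff (mul_ne_zero ha hb), ← h2]
  ring

theorem prod_shift (a : ℕ → ℚ) (m : ℕ) :
    (∏ i ∈ Finset.Icc 1 m, a (i + 1)) * a 1 = ∏ i ∈ Finset.Icc 1 (m + 1), a i := by
  induction m with
  | zero => simp
  | succ m ih =>
    rw [Finset.prod_Icc_succ_top (by omega : 1 ≤ m + 1), mul_right_comm, ih,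
      ← Finset.prod_Icc_succ_top (by omega : 1 ≤ m + 1 + 1)]

theorem hh_eq (n : ℕ) : hh n = ((6 * n + 4).factorial : ℚ) * ((2 * n + 1).factorial : ℚ) /
    (2 * ((4 * n + 3).factorial : ℚ) * ((4 * n + 2).factorial : ℚ)) := by
  have h1 := choose_cast (2 * n + 1) (4 * n + 3)
  have h2 := choose_cast (2 * n + 1) (2 * n + 1)
  rw [show 2 * n + 1 + (4 * n + 3) = 6 * n + 4 by ring] at h1
  rw [show 2 * n + 1 + (2 * n + 1) = 4 * n + 2 by ring] at h2
  unfold hh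
  rw [h1, h2]
  have ha : ((2 * n + 1).factorial : ℚ) ≠ 0 := by exact_mod_cast (2 * n + 1).factorial_ne_zero
  have hb : ((4 * n + 3).factorial : ℚ) ≠ 0 := by exact_mod_cast (4 * n + 3).factorial_ne_zero
  have hc : ((4 * n + 2).factorial : ℚ) ≠ 0 := by exact_mod_cast (4 * n + 2).factorial_ne_zero
  field_simp

theorem ff_eq (n : ℕ) : ff n = 2 ^ (2 * n) * (6 * n + 4) * ((3 * n + 1).factorial : ℚ) *
    ((2 * n + 1).factorial : ℚ) / (2 * (n.factorial : ℚ) * ((4 * n + 2).factorial : ℚ)) := by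
  have h1 := choose_cast n (2 * n + 1)
  have h2 := choose_cast (2 * n + 1) (2 * n + 1)
  rw [show n + (2 * n + 1) = 3 * n + 1 by ring] at h1
  rw [show 2 * n + 1 + (2 * n + 1) = 4 * n + 2 by ring] at h2
  unfold ff
  rw [h1, h2]
  have ha : ((2 * n + 1).factorial : ℚ) ≠ 0 := by exact_mod_cast (2 * n + 1).factorial_ne_zero
  have hb : (n.factorial : ℚ) ≠ 0 := by exact_mod_cast n.factorial_ne_zero
  have hc : ((4 * n + 2).factorial : ℚ) ≠ 0 := by exact_mod_cast (4 * n + 2).factorial_ne_zero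
  field_simp

theorem fs (n : ℕ) : ((n + 1).factorial : ℚ) = (n + 1) * (n.factorial : ℚ) := by
  rw [Nat.factorial_succ]; push_cast; ring

/-- The ratio of consecutive values. -/
noncomputable def rr (n : ℕ) : ℚ := 2 * (3 * n + 5) * (3 * n + 4) * (3 * n + 3) *
  ((6 * n + 4).factorial : ℚ) * ((2 * n + 1).factorial : ℚ) /
  (((4 * n + 3).factorial : ℚ) * ((4 * n + 5).factorial : ℚ))

theorem step_ff (n : ℕ) : ff (n + 1) * hh n = rr n * ff n := by
  rw [ff_eq, ff_eq, hh_eq]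
  unfold rr
  rw [show 3 * (n + 1) + 1 = 3 * n + 1 + 1 + 1 + 1 by ring,
    show 2 * (n + 1) + 1 = 2 * n + 1 + 1 + 1 by ring,
    show 4 * (n + 1) + 2 = 4 * n + 2 + 1 + 1 + 1 + 1 by ring,
    show 4 * n + 3 = 4 * n + 2 + 1 by ring,
    show 4 * n + 5 = 4 * n + 2 + 1 + 1 + 1 by ring]
  simp only [fs]
  push_cast
  have ha : ((2 * n + 1).factorial : ℚ) ≠ 0 := by exact_mod_cast (2 * n + 1).factorial_ne_zero
  have hb : (n.factorial : ℚ) ≠ 0 := by exact_mod_cast n.factorial_ne_zero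
  have hc : ((4 * n + 2).factorial : ℚ) ≠ 0 := by exact_mod_cast (4 * n + 2).factorial_ne_zero
  have h1 : (n : ℚ) + 1 ≠ 0 := by positivity
  have h2 : (4 * (n : ℚ) + 2 + 1) ≠ 0 := by positivity
  have h3 : (4 * (n : ℚ) + 2 + 1 + 1) ≠ 0 := by positivity
  have h4 : (4 * (n : ℚ) + 2 + 1 + 1 + 1) ≠ 0 := by positivity
  have h5 : (4 * (n : ℚ) + 2 + 1 + 1 + 1 + 1) ≠ 0 := by positivity
  field_simp
  ring

/-- The right side. -/
noncomputable def RS (n : ℕ) : ℚ := (2 : ℚ) ^ (n - 1) * ((Nat.factorial (3 * n + 2) : ℕ) : ℚ)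
            / ((Nat.factorial (2 * n + 1) : ℕ) : ℚ)
          * ∏ i ∈ Finset.Icc 1 n,
              (((Nat.factorial (6 * i - 2) : ℕ) : ℚ)
                / ((Nat.factorial (2 * n + 2 * i + 1) : ℕ) : ℚ))

theorem step_RS (n : ℕ) (hn : 1 ≤ n) : RS (n + 1) = rr n * RS n := by
  obtain ⟨m, rfl⟩ : ∃ m, n = m + 1 := ⟨n - 1, by omega⟩
  set n := m + 1 with hndef
  unfold RS rr
  rw [Finset.prod_div_distrib, Finset.prod_div_distrib,
    Finset.prod_Icc_succ_top (by omega : 1 ≤ n + 1)]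
  have h1 := prod_shift (fun i => ((2 * n + 2 * i + 1).factorial : ℚ)) (n + 1)
  have h1b : ∏ i ∈ Finset.Icc 1 (n + 1 + 1), ((2 * n + 2 * i + 1).factorial : ℚ) =
      (∏ i ∈ Finset.Icc 1 n, ((2 * n + 2 * i + 1).factorial : ℚ)) *
        ((2 * n + 2 * (n + 1) + 1).factorial : ℚ) *
        ((2 * n + 2 * (n + 1 + 1) + 1).factorial : ℚ) := by
    rw [Finset.prod_Icc_succ_top (by omega : 1 ≤ n + 1 + 1),
      Finset.prod_Icc_succ_top (by omega : 1 ≤ n + 1)]
  rw [h1b] at h1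
  have h2 : ∏ i ∈ Finset.Icc 1 (n + 1), ((2 * (n + 1) + 2 * i + 1).factorial : ℚ) =
      ∏ i ∈ Finset.Icc 1 (n + 1), ((2 * n + 2 * (i + 1) + 1).factorial : ℚ) := by
    apply Finset.prod_congr rfl
    intro i _
    rw [show 2 * (n + 1) + 2 * i + 1 = 2 * n + 2 * (i + 1) + 1 by ring]
  rw [h2]
  have hA : ∏ i ∈ Finset.Icc 1 (n + 1), ((2 * n + 2 * (i + 1) + 1).factorial : ℚ) ≠ 0 :=
    Finset.prod_ne_zero_iff.mpr fun i _ => by exact_mod_cast Nat.factorial_ne_zero _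
  have hB : ∏ i ∈ Finset.Icc 1 n, ((2 * n + 2 * i + 1).factorial : ℚ) ≠ 0 :=
    Finset.prod_ne_zero_iff.mpr fun i _ => by exact_mod_cast Nat.factorial_ne_zero _
  generalize ∏ i ∈ Finset.Icc 1 (n + 1), ((2 * n + 2 * (i + 1) + 1).factorial : ℚ) = A at *
  generalize ∏ i ∈ Finset.Icc 1 n, ((2 * n + 2 * i + 1).factorial : ℚ) = B at *
  generalize ∏ i ∈ Finset.Icc 1 n, ((6 * i - 2).factorial : ℚ) = C at *
  rw [show 2 * n + 2 * 1 + 1 = 2 * n + 1 + 1 + 1 by ring,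
    show 2 * n + 2 * (n + 1) + 1 = 4 * n + 3 by ring,
    show 2 * n + 2 * (n + 1 + 1) + 1 = 4 * n + 5 by ring] at h1
  rw [show 6 * (n + 1) - 2 = 6 * n + 4 by omega,
    show 2 * (n + 1) + 1 = 2 * n + 1 + 1 + 1 by ring,
    show 3 * (n + 1) + 2 = 3 * n + 2 + 1 + 1 + 1 by ring,
    show n + 1 - 1 = (n - 1) + 1 by omega]
  have g2 : ((2 * n + 1 + 1 + 1).factorial : ℚ) = (2 * (n : ℚ) + 1 + 1 + 1) *
      ((2 * (n : ℚ) + 1 + 1) * ((2 * n + 1).factorial : ℚ)) := by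
    rw [fs (2 * n + 1 + 1), fs (2 * n + 1)]
    push_cast
    ring
  have g3 : ((3 * n + 2 + 1 + 1 + 1).factorial : ℚ) = (3 * (n : ℚ) + 5) *
      ((3 * (n : ℚ) + 4) * ((3 * (n : ℚ) + 3) * ((3 * n + 2).factorial : ℚ))) := by
    rw [fs (3 * n + 2 + 1 + 1), fs (3 * n + 2 + 1), fs (3 * n + 2)]
    push_cast
    ring
  rw [g2] at h1 ⊢
  rw [g3]
  have ha : ((2 * n + 1).factorial : ℚ) ≠ 0 := by exact_mod_cast (2 * n + 1).factorial_ne_zero
  have hb : ((4 * n + 3).factorial : ℚ) ≠ 0 := by exact_mod_cast (4 * n + 3).factorial_ne_zero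
  have hc : ((4 * n + 5).factorial : ℚ) ≠ 0 := by exact_mod_cast (4 * n + 5).factorial_ne_zero
  generalize ((2 * n + 1).factorial : ℚ) = F1 at *
  generalize ((4 * n + 3).factorial : ℚ) = F3 at *
  generalize ((4 * n + 5).factorial : ℚ) = F5 at *
  generalize ((6 * n + 4).factorial : ℚ) = F4 at *
  generalize ((3 * n + 2).factorial : ℚ) = F2 at *
  have h3 : (2 * (n : ℚ) + 1 + 1) ≠ 0 := by positivity
  have h4 : (2 * (n : ℚ) + 1 + 1 + 1) ≠ 0 := by positivity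
  have hA2 : A = B * F3 * F5 / ((2 * (n : ℚ) + 1 + 1 + 1) * ((2 * (n : ℚ) + 1 + 1) * F1)) := by
    rw [eq_div_iff (mul_ne_zero h4 (mul_ne_zero h3 ha)), h1]
  rw [hA2]
  field_simp
  ring

theorem T_FIN : Pool.Agent.W98.OS.S_FIN := by
  intro n hn
  have key : ∀ n : ℕ, 1 ≤ n → ff n * ∏ k ∈ Finset.range n, hh k = RS n := by
    intro n hn
    induction n, hn using Nat.le_induction with
    | base =>
      rw [ff_eq, Finset.prod_range_one, hh_eq]
      unfold RS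
      simp [Nat.factorial]
      norm_num
    | succ n hn ih =>
      rw [step_RS n hn, ← ih, Finset.prod_range_succ]
      have := step_ff n
      linear_combination (∏ k ∈ Finset.range n, hh k) * this
  exact key n hn

end Pool.Agent.W362.OS.FIN
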