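import Pool.Agent.W98.OS.Defs

/-!
# Project OS: the Pfaffian formula of odd order
-/

set_option autoImplicit false

namespace Pool.Agent.W362.OS.INTO

open Pool.Agent.W98.OS Polynomial

section polyfun

variable {K : Type} [Field K]

/-- Polynomial functions of bounded degree. -/
def PD (d : ℕ) (f : K → K) : Prop := ∃ p : K[X], p.natDegree ≤ d ∧ ∀ X, f X = p.eval X

theorem PD.mono {d e : ℕ} {f : K → K} (hf : PD d f) (h : d ≤ e) : PD e f := by
  obtain ⟨p, hp, hp'⟩ := hf
  exact ⟨p, hp.trans h, hp'⟩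

theorem PD.const (c : K) (d : ℕ) : PD d (fun _ => c) :=
  ⟨C c, by simp, fun X => by simp⟩

theorem PD.mul {d e : ℕ} {f g : K → K} (hf : PD d f) (hg : PD e g) :
    PD (d + e) (fun X => f X * g X) := by
  obtain ⟨p, hp, hp'⟩ := hf
  obtain ⟨q, hq, hq'⟩ := hg
  exact ⟨p * q, natDegree_mul_le.trans (add_le_add hp hq), fun X => by
    rw [eval_mul, ← hp', ← hq']⟩

theorem PD.add {d : ℕ} {f g : K → K} (hf : PD d f) (hg : PD d g) :
    PD d (fun X => f X + g X) := by
  obtain ⟨p, hp, hp'⟩ := hf
  obtain ⟨q, hq, hq'⟩ := hg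
  exact ⟨p + q, natDegree_add_le_of_degree_le hp hq, fun X => by
    rw [eval_add, ← hp', ← hq']⟩

theorem PD.sum {d : ℕ} {ι : Type} (s : Finset ι) (f : ι → K → K) (h : ∀ i ∈ s, PD d (f i)) :
    PD d (fun X => ∑ i ∈ s, f i X) := by
  classical
  induction s using Finset.induction_on with
  | empty => simpa using PD.const (0 : K) d
  | insert a s ha ih =>
    have := (h a (Finset.mem_insert_self a s)).add
      (ih fun i hi => h i (Finset.mem_insert_of_mem hi))
    simpa [Finset.sum_insert ha] using this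

theorem PD.prod {d : ℕ} {ι : Type} (s : Finset ι) (f : ι → K → K) (h : ∀ i ∈ s, PD d (f i)) :
    PD (s.card * d) (fun X => ∏ i ∈ s, f i X) := by
  classical
  induction s using Finset.induction_on with
  | empty => simpa using PD.const (1 : K) 0
  | insert a s ha ih =>
    have := (h a (Finset.mem_insert_self a s)).mul
      (ih fun i hi => h i (Finset.mem_insert_of_mem hi))
    have h2 : (insert a s).card * d = d + s.card * d := by
      rw [Finset.card_insert_of_notMem ha]; ring
    rw [h2]
    simpa [Finset.prod_insert ha] using this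

theorem PD.lin (a b : K) : PD 1 (fun X => a * X + b) :=
  ⟨C a * Polynomial.X + C b, natDegree_linear_le, fun X => by simp⟩

theorem PD.eq_of_nodes {d : ℕ} {f g : K → K} (hf : PD d f) (hg : PD d g) {ι : Type} [Fintype ι]
    (x : ι → K) (hx : Function.Injective x) (hd : d < Fintype.card ι)
    (h : ∀ i, f (x i) = g (x i)) : ∀ X, f X = g X := by
  obtain ⟨p, hp, hp'⟩ := hf
  obtain ⟨q, hq, hq'⟩ := hg
  have h1 : p - q = 0 := by
    apply Polynomial.eq_zero_of_natDegree_lt_card_of_eval_eq_zero (p - q) hx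
    · intro i
      rw [eval_sub, ← hp', ← hq', h i, sub_self]
    · exact lt_of_le_of_lt ((natDegree_sub_le p q).trans (max_le hp hq)) hd
  intro X
  rw [hp', hq', sub_eq_zero.mp h1]

theorem PD.Dd (y : K) : PD 2 (fun X => Dd X y) := by
  have := (PD.lin (-y) 1).mul (PD.lin (-1) (1 - y))
  have h2 : (fun X : K => Pool.Agent.W98.OS.Dd X y) =
      fun X => (-y * X + 1) * (-1 * X + (1 - y)) := by
    funext X
    unfold Pool.Agent.W98.OS.Dd
    ring
  rw [h2]
  exact this

end polyfun

theorem Dd_comm {K : Type} [CommRing K] (x y : K) : Dd x y = Dd y x := by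
  unfold Dd; ring

theorem gK_anti {K : Type} [Field K] (x y : K) : gK x y = - gK y x := by
  unfold gK
  rw [Dd_comm x y, ← neg_div]
  congr 1
  ring

theorem gO_anti {K : Type} [Field K] (x y : Option K) : gO x y = - gO y x := by
  cases x <;> cases y <;> simp [gO]
  exact gK_anti _ _

theorem addN_castSucc {α : Type} {n : ℕ} (y : Fin n → α) (i : Fin n) :
    addN y i.castSucc = some (y i) := by simp [addN]

theorem addN_last {α : Type} {n : ℕ} (y : Fin n → α) :
    addN y (Fin.last n) = none := by simp [addN]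

theorem addN_cons {α : Type} {n : ℕ} (a : α) (y : Fin n → α) :
    addN (Fin.cons a y : Fin (n + 1) → α) =
      (Fin.cons (some a) (addN y) : Fin (n + 2) → Option α) := by
  funext i
  refine Fin.lastCases ?_ (fun i => ?_) i
  · have : (Fin.last (n + 1) : Fin (n + 2)) = Fin.succ (Fin.last n) := rfl
    rw [addN_last, this, Fin.cons_succ, addN_last]
  · rw [addN_castSucc]
    refine Fin.cases ?_ (fun i => ?_) i
    · simp
    · have : (Fin.castSucc (Fin.succ i) : Fin (n + 2)) = Fin.succ (Fin.castSucc i) := rfl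
      rw [this, Fin.cons_succ, Fin.cons_succ, addN_castSucc]

theorem addN_succAbove {α : Type} {n : ℕ} (y : Fin (n + 1) → α) (k : Fin (n + 1)) :
    (fun j : Fin (n + 1) => addN y (k.castSucc.succAbove j)) =
      addN (fun j => y (k.succAbove j)) := by
  funext j
  refine Fin.lastCases ?_ (fun j => ?_) j
  · rw [addN_last]
    have : (k.castSucc.succAbove (Fin.last n) : Fin (n + 2)) = Fin.last (n + 1) := by
      rw [Fin.succAbove_castSucc_of_le _ _ (Fin.le_last k)]
      rfl
    rw [this, addN_last]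
  · rw [addN_castSucc, Fin.castSucc_succAbove_castSucc, addN_castSucc]

/-- Expansion of the Pfaffian with the point at infinity. -/
theorem pf_expand {K : Type} [Field K] {n : ℕ} (hn : Even (n + 1)) (X : K) (y : Fin (n + 1) → K) :
    pfG gO (n + 3) (addN (Fin.cons X y : Fin (n + 2) → K)) =
      ∑ k : Fin (n + 1), (-1) ^ (k : ℕ) * gK X (y k) *
        pfG gO (n + 1) (addN (fun j => y (k.succAbove j))) +
      1 / (1 - 2 * X) * pfG gK (n + 1) y := by
  rw [addN_cons, pfG_cons, Fin.sum_univ_castSucc]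
  congr 1
  · apply Finset.sum_congr rfl
    intro k _
    rw [addN_succAbove, addN_castSucc]
    rfl
  · rw [addN_last, Fin.val_last, hn.neg_one_pow, one_mul]
    have h1 : (fun k : Fin (n + 1) => addN y ((Fin.last (n + 1)).succAbove k)) =
        fun k => some (y k) := by
      funext k
      rw [Fin.succAbove_last, addN_castSucc]
    rw [h1]
    rfl

/-- The right side as a function of the first variable. -/
noncomputable def Rf {K : Type} [Field K] {n : ℕ} (y : Fin (n + 1) → K) (X : K) : K :=
  (PP Dd y * ∏ j, (1 - 2 * y j)) *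
    (∑ k : Fin (n + 1), ((-1) ^ (k : ℕ) * pfG gO (n + 1) (addN (fun j => y (k.succAbove j)))) *
      (((y k - X) * (1 - 2 * X)) * ∏ j, Dd X (y (k.succAbove j))) +
    pfG gK (n + 1) y * ∏ j, Dd X (y j))

theorem Rf_eq {K : Type} [Field K] {n : ℕ} (hn : Even (n + 1)) (X : K) (y : Fin (n + 1) → K)
    (hD : ∀ j, Dd X (y j) ≠ 0) (h2 : 1 - 2 * X ≠ 0) :
    Rf y X = (PP Dd y * ∏ j, (1 - 2 * y j)) * ((∏ j, Dd X (y j)) * ((1 - 2 * X) *
      pfG gO (n + 3) (addN (Fin.cons X y : Fin (n + 2) → K)))) := by
  unfold Rf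
  congr 1
  rw [pf_expand hn, mul_add, mul_add, Finset.mul_sum, Finset.mul_sum]
  congr 1
  · apply Finset.sum_congr rfl
    intro k _
    rw [Fin.prod_univ_succAbove (fun j => Dd X (y j)) k]
    have h3 : gK X (y k) * Dd X (y k) = y k - X := by
      unfold gK
      exact div_mul_cancel₀ _ (hD k)
    rw [← h3]
    ring
  · have h3 : (1 - 2 * X) * (1 / (1 - 2 * X) * pfG gK (n + 1) y) = pfG gK (n + 1) y := by
      field_simp
    rw [h3]
    ring

theorem Rf_PD {K : Type} [Field K] {n : ℕ} (y : Fin (n + 1) → K) : PD (2 * (n + 1)) (Rf y) := by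
  unfold Rf
  have h1 : PD (2 * (n + 1)) (fun X => ∏ j, Dd X (y j)) := by
    have := PD.prod (Finset.univ : Finset (Fin (n + 1))) (fun j X => Dd X (y j))
      (fun j _ => PD.Dd (y j))
    rw [Finset.card_univ, Fintype.card_fin, mul_comm] at this
    exact this
  have h2 : ∀ k : Fin (n + 1), PD (2 * (n + 1)) (fun X => ((y k - X) * (1 - 2 * X)) *
      ∏ j, Dd X (y (k.succAbove j))) := by
    intro k
    have h3 := PD.prod (Finset.univ : Finset (Fin n)) (fun j X => Dd X (y (k.succAbove j)))
      (fun j _ => PD.Dd (y (k.succAbove j)))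
    have h4 := (PD.lin (-1) (y k)).mul (PD.lin (-2) (1 : K))
    have h5 := h4.mul h3
    rw [Finset.card_univ, Fintype.card_fin] at h5
    have h6 : 1 + 1 + n * 2 = 2 * (n + 1) := by ring
    rw [h6] at h5
    have h7 : (fun X : K => ((y k - X) * (1 - 2 * X)) * ∏ j, Dd X (y (k.succAbove j))) =
        fun X => (-1 * X + y k) * (-2 * X + 1) * ∏ j, Dd X (y (k.succAbove j)) := by
      funext X
      ring
    rw [h7]
    exact h5
  have h3 : PD (2 * (n + 1)) (fun X => ∑ k : Fin (n + 1),
      ((-1) ^ (k : ℕ) * pfG gO (n + 1) (addN (fun j => y (k.succAbove j)))) *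
      (((y k - X) * (1 - 2 * X)) * ∏ j, Dd X (y (k.succAbove j)))) := by
    apply PD.sum
    intro k _
    have := (PD.const ((-1) ^ (k : ℕ) * pfG gO (n + 1)
      (addN (fun j => y (k.succAbove j)))) 0).mul (h2 k)
    rw [zero_add] at this
    exact this
  have h4 : PD (2 * (n + 1)) (fun X => pfG gK (n + 1) y * ∏ j, Dd X (y j)) := by
    have := (PD.const (pfG gK (n + 1) y) 0).mul h1
    rw [zero_add] at this
    exact this
  have h5 := (PD.const (PP Dd y * ∏ j, (1 - 2 * y j)) 0).mul (h3.add h4)
  rw [zero_add] at h5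
  exact h5

/-- The left side as a function of the first variable. -/
noncomputable def Lf {K : Type} [Field K] {n : ℕ} (y : Fin (n + 1) → K) (X : K) : K :=
  W0 (X :: List.ofFn y) * ((∏ j, (y j - X)) * Van y)

theorem Lf_PD {K : Type} [Field K] (hD : S_DEG) {n : ℕ} (y : Fin (n + 1) → K) :
    PD (2 * (n + 1)) (Lf y) := by
  obtain ⟨p, hp, hp'⟩ := (hD K (List.ofFn y)).2
  have h1 : PD (n + 1) (fun X => W0 (X :: List.ofFn y)) := by
    refine ⟨p, ?_, hp'⟩
    rw [List.length_ofFn] at hp
    have h2 : p.degree < ((n + 1 + 1 : ℕ) : WithBot ℕ) := by exact_mod_cast hp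
    by_cases h0 : p = 0
    · rw [h0]; simp
    · exact Nat.lt_succ_iff.mp ((Polynomial.natDegree_lt_iff_degree_lt h0).mpr h2)
  have h2 : PD (n + 1) (fun X => ∏ j, (y j - X)) := by
    have := PD.prod (Finset.univ : Finset (Fin (n + 1))) (fun j X => -1 * X + y j)
      (fun j _ => PD.lin (-1) (y j))
    rw [Finset.card_univ, Fintype.card_fin, mul_one] at this
    have h7 : (fun X : K => ∏ j, (y j - X)) = fun X => ∏ j, (-1 * X + y j) := by
      funext X
      apply Finset.prod_congr rfl
      intro j _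
      ring
    rw [h7]
    exact this
  have h3 := h1.mul (h2.mul (PD.const (Van y) 0))
  have h4 : n + 1 + (n + 1 + 0) = 2 * (n + 1) := by ring
  rw [h4] at h3
  exact h3

theorem node_y (hA : S_ALT) {K : Type} [Field K] [CharZero K] {n : ℕ} (hn : Even (n + 1))
    (y : Fin (n + 1) → K) (hy : Gen y) (k : Fin (n + 1)) : Lf y (y k) = Rf y (y k) := by
  have hD : ∀ j, Dd (y k) (y j) ≠ 0 := by
    intro j
    unfold Dd
    by_cases h : k = j
    · subst h
      have := hy.1 k
      apply mul_ne_zero
      · intro h; exact this.2.2.1 (by linear_combination -h)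
      · intro h; exact this.2.1 (by linear_combination -h)
    · have := hy.2 k j h
      apply mul_ne_zero
      · intro h; exact this.2.1 (by linear_combination -h)
      · exact this.2.2
  have h2 : 1 - 2 * y k ≠ 0 := by
    intro h; exact (hy.1 k).2.1 (by linear_combination -h)
  have h3 : ¬ Function.Injective (addN (Fin.cons (y k) y : Fin (n + 2) → K)) := by
    intro hi
    have h4 : addN (Fin.cons (y k) y : Fin (n + 2) → K) (0 : Fin (n + 2)).castSucc =
        addN (Fin.cons (y k) y : Fin (n + 2) → K) (k.succ).castSucc := by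
      rw [addN_castSucc, addN_castSucc, Fin.cons_zero, Fin.cons_succ]
    have h5 := Fin.castSucc_injective _ (hi h4)
    exact (Fin.succ_ne_zero k) h5.symm
  rw [Rf_eq hn _ _ hD h2, hA K (Option K) gO gO_anti (n + 3) _ h3]
  unfold Lf
  rw [Finset.prod_eq_zero (Finset.mem_univ k) (sub_self _)]
  ring

theorem perm_ofFn {K : Type} {n : ℕ} (y : Fin (n + 1) → K) (k : Fin (n + 1)) :
    (List.ofFn y).Perm (List.ofFn (fun j => y (k.succAbove j)) ++ [y k]) := by
  have h1 : (List.ofFn (y ∘ (Fin.cycleRange k).symm)).Perm (List.ofFn y) :=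
    Equiv.Perm.ofFn_comp_perm (Fin.cycleRange k).symm y
  have h2 : y ∘ (Fin.cycleRange k).symm =
      (Fin.cons (y k) (fun j => y (k.succAbove j)) : Fin (n + 1) → K) := by
    funext j
    refine Fin.cases ?_ (fun j => ?_) j
    · simp
    · simp
  rw [h2, List.ofFn_cons] at h1
  exact h1.symm.trans (List.perm_append_comm (l₁ := [y k])
    (l₂ := List.ofFn (fun j => y (k.succAbove j))))

theorem node_inv (hP : S_PERM) (hF : S_FRZ) (hR : S_REM) {K : Type} [Field K] [CharZero K]
    {n : ℕ} (y : Fin (n + 1) → K) (k : Fin (n + 1)) (X : K) (hX : X * y k = 1)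
    (ih : W0 (List.ofFn fun j => y (k.succAbove j)) * Van (fun j => y (k.succAbove j)) =
      PP Dd (fun j => y (k.succAbove j)) * (∏ i, (1 - 2 * y (k.succAbove i))) *
        pfG gO (n + 1) (addN (fun j => y (k.succAbove j)))) :
    Lf y X = Rf y X := by
  have hD0 : Dd X (y k) = 0 := by
    unfold Dd
    rw [hX]; ring
  have h1 : W0 (X :: List.ofFn y) = (1 - 2 * X) * (1 - 2 * y k) *
      (∏ j, ((1 - X - y (k.succAbove j)) * (1 - y (k.succAbove j) - y k))) *
      W0 (List.ofFn fun j => y (k.succAbove j)) := by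
    rw [(hP K _ _ ((perm_ofFn y k).cons X)).2, (hF K X (y k) _ hX).2, List.map_ofFn,
      List.prod_ofFn]
    rfl
  have h2 : Rf y X = (PP Dd y * ∏ j, (1 - 2 * y j)) *
      (((-1) ^ (k : ℕ) * pfG gO (n + 1) (addN (fun j => y (k.succAbove j)))) *
      (((y k - X) * (1 - 2 * X)) * ∏ j, Dd X (y (k.succAbove j)))) := by
    unfold Rf
    congr 1
    rw [Finset.prod_eq_zero (Finset.mem_univ k) hD0, mul_zero, add_zero]
    apply Finset.sum_eq_single k
    · intro b _ hb
      obtain ⟨j, hj⟩ := Fin.exists_succAbove_eq (Ne.symm hb)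
      rw [Finset.prod_eq_zero (Finset.mem_univ j) (by rw [hj]; exact hD0)]
      ring
    · intro h
      exact absurd (Finset.mem_univ k) h
  have h3 : (∏ j, ((1 - X - y (k.succAbove j)) * (1 - y (k.succAbove j) - y k))) *
      (∏ j, (y (k.succAbove j) - X)) * (∏ j, (y (k.succAbove j) - y k)) =
      (∏ j, Dd (y k) (y (k.succAbove j))) * ∏ j, Dd X (y (k.succAbove j)) := by
    rw [← Finset.prod_mul_distrib, ← Finset.prod_mul_distrib, ← Finset.prod_mul_distrib]
    apply Finset.prod_congr rfl
    intro j _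
    unfold Dd
    generalize y (k.succAbove j) = z
    linear_combination ((1 - X - z) * (1 - z - y k) * (1 - z ^ 2)) * hX
  rw [h2]
  unfold Lf
  rw [h1, (hR K n y k).1, (hR K n y k).2 Dd Dd_comm, Fin.prod_univ_succAbove (fun j => y j - X) k,
    Fin.prod_univ_succAbove (fun j => 1 - 2 * y j) k]
  generalize (∏ j, ((1 - X - y (k.succAbove j)) * (1 - y (k.succAbove j) - y k))) = P1 at *
  generalize (∏ j, (y (k.succAbove j) - X)) = P2 at *
  generalize (∏ j, (y (k.succAbove j) - y k)) = P3 at *
  generalize (∏ j, Dd (y k) (y (k.succAbove j))) = P4 at *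
  generalize (∏ j, Dd X (y (k.succAbove j))) = P5 at *
  generalize W0 (List.ofFn fun j => y (k.succAbove j)) = w at *
  generalize Van (fun j => y (k.succAbove j)) = V at *
  generalize pfG gO (n + 1) (addN (fun j => y (k.succAbove j))) = q at *
  generalize PP Dd (fun j => y (k.succAbove j)) = r at *
  generalize (∏ i, (1 - 2 * y (k.succAbove i))) = t at *
  linear_combination ((1 - 2 * X) * (1 - 2 * y k) * (y k - X) * (-1) ^ (k : ℕ)) *
    (w * V * h3 + P4 * P5 * ih)

theorem node_half (hE : S_INTE) (hH : S_HALF) {K : Type} [Field K] [CharZero K]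
    {n : ℕ} (hn : Even (n + 1)) (y : Fin (n + 1) → K) (hy : Gen y) (X : K) (hX : 2 * X = 1) :
    Lf y X = Rf y X := by
  have h1 : W0 (X :: List.ofFn y) = (∏ j, ((1 - X * y j) * (1 - 2 * y j))) *
      Z0 (List.ofFn y) := by
    rw [hH K X _ hX, List.map_ofFn, List.prod_ofFn]
    rfl
  have h2 : Rf y X = (PP Dd y * ∏ j, (1 - 2 * y j)) *
      (pfG gK (n + 1) y * ∏ j, Dd X (y j)) := by
    unfold Rf
    congr 1
    rw [Finset.sum_eq_zero, zero_add]
    intro k _
    rw [hX]; ring
  have h3 : ∏ j, (y j - X) = ∏ j, (1 - X - y j) := by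
    have : ∀ j, y j - X = (-1) * (1 - X - y j) := by
      intro j
      linear_combination -hX
    rw [Finset.prod_congr rfl (fun j _ => this j), Finset.prod_mul_distrib, Finset.prod_const,
      Finset.card_univ, Fintype.card_fin, hn.neg_one_pow, one_mul]
  have h4 : (∏ j, Dd X (y j)) = (∏ j, (1 - X * y j)) * ∏ j, (1 - X - y j) := by
    rw [← Finset.prod_mul_distrib]
    rfl
  have h5 := hE K (n + 1) y hn hy
  rw [h2]
  unfold Lf
  rw [h1, h3, h4, Finset.prod_mul_distrib]
  linear_combination ((∏ j, (1 - X * y j)) * (∏ j, (1 - 2 * y j)) * ∏ j, (1 - X - y j)) * h5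

/-- The nodes. -/
noncomputable def nod {K : Type} [Field K] {n : ℕ} (y : Fin (n + 1) → K) :
    Option (Fin (n + 1) ⊕ Fin (n + 1)) → K
  | none => 1 / 2
  | some (Sum.inl i) => y i
  | some (Sum.inr i) => (y i)⁻¹

theorem nod_inj {K : Type} [Field K] [CharZero K] {n : ℕ} (y : Fin (n + 1) → K) (hy : Gen y) :
    Function.Injective (nod y) := by
  have hyi : Function.Injective y := by
    intro i j h
    by_contra h2
    exact (hy.2 i j h2).1 h
  have h0 : ∀ i, (1 / 2 : K) ≠ y i := fun i h => (hy.1 i).2.1 (by rw [← h]; norm_num)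
  have h1 : ∀ i, (1 / 2 : K) ≠ (y i)⁻¹ := fun i h => (hy.1 i).2.2.2 (by
    rw [one_div] at h
    exact (inv_injective h).symm)
  have h2 : ∀ i j, y i ≠ (y j)⁻¹ := by
    intro i j h
    have h3 : y i * y j = 1 := by rw [h]; exact inv_mul_cancel₀ (hy.1 j).1
    by_cases h4 : i = j
    · subst h4
      exact (hy.1 i).2.2.1 h3
    · exact (hy.2 i j h4).2.1 h3
  intro a b h
  rcases a with _ | (i | i) <;> rcases b with _ | (j | j) <;> simp only [nod] at h
  · rfl
  · exact absurd h (h0 j)
  · exact absurd h (h1 j)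
  · exact absurd h.symm (h0 i)
  · rw [hyi h]
  · exact absurd h (h2 i j)
  · exact absurd h.symm (h1 i)
  · exact absurd h.symm (h2 j i)
  · rw [hyi (inv_injective h)]

theorem T_INTO (hE : S_INTE) (hP : S_PERM) (hD : S_DEG) (hH : S_HALF) (hF : S_FRZ)
    (hA : S_ALT) (hR : S_REM) : Pool.Agent.W98.OS.S_INTO := by
  intro K _ _ m
  induction m using Nat.strong_induction_on with
  | _ m IH =>
  intro x hm hx
  rcases m with _ | m
  · exact absurd hm (by decide)
  rcases m with _ | n
  · -- one point
    have h2 : 1 - 2 * x 0 ≠ 0 := by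
      intro h; exact (hx.1 0).2.1 (by linear_combination -h)
    have h3 : pfG gO (0 + 1 + 1) (addN x) = 1 / (1 - 2 * x 0) := by
      have : addN x = (Fin.cons (some (x 0)) (fun _ => none) : Fin 2 → Option K) := by
        funext i
        fin_cases i
        · exact addN_castSucc x 0
        · exact addN_last x
      rw [this]
      have h4 := pfG_cons (gO : Option K → Option K → K) 0 (some (x 0)) (fun _ => none)
      refine h4.trans ?_
      simp [pfG, Pool.Agent.Helper929.pf, gO]
    have h5 : List.ofFn x = [x 0] := by simp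
    rw [h3, h5]
    have h6 : W0 [x 0] = 1 := by
      simp [W0, Wf, zs, row, Ef, Zf]
    rw [h6]
    simp [Van, PP]
    field_simp
  · have hn : Even (n + 1) := by
      rcases hm with ⟨a, ha⟩
      exact ⟨a, by omega⟩
    have hno : Odd n := by
      rcases hm with ⟨a, ha⟩
      rcases a with _ | a
      · omega
      · exact ⟨a, by omega⟩
    obtain ⟨X, y, rfl⟩ : ∃ (X : K) (y : Fin (n + 1) → K), x = Fin.cons X y :=
      ⟨x 0, Fin.tail x, (Fin.cons_self_tail x).symm⟩
    have hy : Gen y := by
      refine ⟨fun i => ?_, fun i j hij => ?_⟩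
      · have := hx.1 i.succ
        rwa [Fin.cons_succ] at this
      · have := hx.2 i.succ j.succ (fun h => hij (Fin.succ_injective _ h))
        rwa [Fin.cons_succ, Fin.cons_succ] at this
    have hDX : ∀ j, Dd X (y j) ≠ 0 := by
      intro j
      have := hx.2 0 j.succ (Fin.succ_ne_zero j).symm
      rw [Fin.cons_succ, Fin.cons_zero] at this
      unfold Dd
      apply mul_ne_zero
      · intro h; exact this.2.1 (by linear_combination -h)
      · exact this.2.2
    have h2 : 1 - 2 * X ≠ 0 := by
      have := (hx.1 0).2.1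
      rw [Fin.cons_zero] at this
      intro h; exact this (by linear_combination -h)
    have key : Lf y X = Rf y X := by
      refine PD.eq_of_nodes (Lf_PD hD y) (Rf_PD y) (nod y) (nod_inj y hy) ?_ ?_ X
      · simp only [Fintype.card_option, Fintype.card_sum, Fintype.card_fin]
        omega
      · intro a
        rcases a with _ | (k | k)
        · exact node_half hE hH hn y hy _ (by simp [nod])
        · exact node_y hA hn y hy k
        · refine node_inv hP hF hR y k _ (by simp only [nod]; exact inv_mul_cancel₀ (hy.1 k).1) ?_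
          apply IH n (by omega) _ hno
          refine ⟨fun i => hy.1 _, fun i j hij => hy.2 _ _ ?_⟩
          intro h
          exact hij (Fin.succAbove_right_injective h)
    rw [Rf_eq hn X y hDX h2] at key
    have hV := (hR K (n + 1) (Fin.cons X y) 0).1
    have hPP := (hR K (n + 1) (Fin.cons X y) 0).2 Dd Dd_comm
    simp only [Fin.zero_succAbove, Fin.cons_succ, Fin.cons_zero, Fin.val_zero, pow_zero,
      one_mul] at hV hPP
    have hpr : ∏ i, (1 - 2 * (Fin.cons X y : Fin (n + 2) → K) i) =
        (1 - 2 * X) * ∏ j, (1 - 2 * y j) := by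
      rw [Fin.prod_univ_succ]
      rfl
    unfold Lf at key
    have hfin : W0 (X :: List.ofFn y) * ((∏ x, (y x - X)) * Van y) =
        (((∏ x, Dd X (y x)) * PP Dd y) * ((1 - 2 * X) * ∏ j, (1 - 2 * y j))) *
          pfG gO (n + 3) (addN (Fin.cons X y : Fin (n + 2) → K)) := by
      rw [key]
      ring
    rw [List.ofFn_cons, hV, hPP, hpr]
    exact hfin

end Pool.Agent.W362.OS.INTO
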